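import Pool.Agent.Lib.MP_7b6720_al.INV.Iface

set_option autoImplicit false

/-! # Module COUNT -/

namespace Pool.Agent.SymDiam.H59

open Equiv Finset Pool.Agent.SymDiam

open scoped Classical in
theorem walk_inj {n : ℕ} (g b : Perm (Fin n)) (j : ℕ) :
    Function.Injective fun x => walk g b x j := by
  induction j with
  | zero => exact fun x y h => h
  | succ j ih =>
    intro x y h
    apply ih
    change (if j % 2 = 0 then b (walk g b x j) else g (walk g b x j)) =
      (if j % 2 = 0 then b (walk g b y j) else g (walk g b y j)) at h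
    split_ifs at h
    · exact b.injective h
    · exact g.injective h

/-- the parameters -/
abbrev Par (n K : ℕ) (g : Perm (Fin n)) : Type :=
  Fin n × Fin n × (Fin K → g.support) × (Fin (K - 1) → g.support)

/-- the odd points of the walk -/
def pe {n K : ℕ} {g : Perm (Fin n)} (π : Par n K g) (i : ℕ) : Fin n :=
  if h : i < K - 1 then (π.2.2.2 ⟨i, h⟩ : Fin n) else π.2.1

/-- the images of the even points of the walk -/
def ye {n K : ℕ} {g : Perm (Fin n)} (π : Par n K g) (i : ℕ) : Fin n :=
  if h : i < K then (π.2.2.1 ⟨i, h⟩ : Fin n) else π.1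

/-- the walk -/
def E1 {n K : ℕ} {g : Perm (Fin n)} (π : Par n K g) (j : ℕ) : Fin n :=
  if j = 0 then π.1 else if j % 2 = 1 then pe π (j / 2) else g (pe π (j / 2 - 1))

/-- the image of the walk -/
def E2 {n K : ℕ} {g : Perm (Fin n)} (π : Par n K g) (j : ℕ) : Fin n :=
  if j % 2 = 0 then ye π (j / 2) else g (ye π (j / 2))

/-- the extended tuple -/
def T1 {n k K : ℕ} {g : Perm (Fin n)} (e : Fin k ↪ Fin n) (π : Par n K g) :
    Fin (k + 2 * K) → Fin n := Fin.addCases e fun j => E1 π j

/-- the image of the extended tuple -/
def T2 {n k K : ℕ} {g : Perm (Fin n)} (e : Fin k ↪ Fin n) (π : Par n K g) :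
    Fin (k + 2 * K) → Fin n := Fin.addCases e fun j => E2 π j

/-- the condition -/
def Cond {n k K : ℕ} {g : Perm (Fin n)} (e e' : Fin k ↪ Fin n) (h : Perm (Fin n))
    (π : Par n K g) : Prop :=
  Function.Injective (T1 e π) ∧ Function.Injective (T2 e' π) ∧ ∀ i, h (T1 e π i) = T2 e' π i

theorem exists_par {n k K : ℕ} (hK : 1 ≤ K) {g : Perm (Fin n)} (e e' : Fin k ↪ Fin n)
    (h : Perm (Fin n)) (hm : Maps e e' h) (x : Fin n) (hd : Dist g (cj g h) (2 * K) x)
    (hx : ∀ j < 2 * K, ∀ i, walk g (cj g h) x j ≠ e i) :
    ∃ π : Par n K g, π.1 = x ∧ Cond e e' h π := by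
  set w : ℕ → Fin n := fun j => walk g (cj g h) x j with hw
  have hodd : ∀ i, h (w (2 * i + 1)) = g (h (w (2 * i))) := by
    intro i
    have h1 : w (2 * i + 1) = cj g h (w (2 * i)) := by
      change (if (2 * i) % 2 = 0 then _ else _) = _
      rw [if_pos (by omega)]
    rw [h1]
    change h (h⁻¹ (g (h (w (2 * i))))) = _
    exact h.apply_symm_apply _
  have heven : ∀ i, w (2 * i + 2) = g (w (2 * i + 1)) := by
    intro i
    change (if (2 * i + 1) % 2 = 0 then _ else _) = _
    rw [if_neg (by omega)]
  have hinj : ∀ i < 2 * K, ∀ j < 2 * K, w i = w j → i = j := hd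
  let π : Par n K g := ⟨x, w (2 * K - 1), fun i => ⟨h (w (2 * i)), by
      rw [Perm.mem_support, ← hodd]
      intro h1
      have h2 := hinj _ (by omega) _ (by omega) (h.injective h1)
      omega⟩, fun i => ⟨w (2 * i + 1), by
      rw [Perm.mem_support, ← heven]
      intro h1
      have h2 := hinj _ (by omega) _ (by omega) h1
      omega⟩⟩
  have hpe : ∀ i < K, pe π i = w (2 * i + 1) := by
    intro i hi
    unfold pe
    split_ifs with h1
    · rfl
    · have h2 : i = K - 1 := by omega
      subst h2
      change w (2 * K - 1) = _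
      congr 1
      omega
  have hye : ∀ i < K, ye π i = h (w (2 * i)) := by
    intro i hi
    unfold ye
    rw [dif_pos hi]
  have hE1 : ∀ j < 2 * K, E1 π j = w j := by
    intro j hj
    unfold E1
    split_ifs with h1 h2
    · subst h1; rfl
    · rw [hpe _ (by omega)]
      congr 1
      omega
    · rw [hpe _ (by omega), ← heven]
      congr 1
      omega
  have hE2 : ∀ j < 2 * K, E2 π j = h (w j) := by
    intro j hj
    unfold E2
    split_ifs with h1
    · rw [hye _ (by omega)]
      congr 2
      omega
    · rw [hye _ (by omega), ← hodd]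
      congr 2
      omega
  have hT : ∀ i, h (T1 e π i) = T2 e' π i := by
    intro i
    refine Fin.addCases (fun i => ?_) (fun j => ?_) i
    · simp only [T1, T2, Fin.addCases_left]
      exact hm i
    · simp only [T1, T2, Fin.addCases_right]
      rw [hE1 _ j.2, hE2 _ j.2]
  have hT1 : Function.Injective (T1 e π) := by
    intro i j hij
    induction i using Fin.addCases with
    | left i =>
      induction j using Fin.addCases with
      | left j =>
        simp only [T1, Fin.addCases_left] at hij
        rw [e.injective hij]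
      | right j =>
        simp only [T1, Fin.addCases_left, Fin.addCases_right] at hij
        rw [hE1 _ j.2] at hij
        exact absurd hij.symm (hx _ j.2 i)
    | right i =>
      induction j using Fin.addCases with
      | left j =>
        simp only [T1, Fin.addCases_left, Fin.addCases_right] at hij
        rw [hE1 _ i.2] at hij
        exact absurd hij (hx _ i.2 j)
      | right j =>
        simp only [T1, Fin.addCases_right] at hij
        rw [hE1 _ i.2, hE1 _ j.2] at hij
        rw [Fin.ext (hinj _ i.2 _ j.2 hij)]
  refine ⟨π, rfl, hT1, ?_, hT⟩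
  intro i j hij
  rw [← hT, ← hT] at hij
  exact hT1 (h.injective hij)

open scoped Classical in
theorem card_good {n k K : ℕ} (hK : 1 ≤ K) {g : Perm (Fin n)} (e e' : Fin k ↪ Fin n)
    (h : Perm (Fin n)) (hm : Maps e e' h) :
    (univ.filter fun x => Dist g (cj g h) (2 * K) x).card ≤
      2 * K * k + (univ.filter fun π : Par n K g => Cond e e' h π).card := by
  have hsub : (univ.filter fun x => Dist g (cj g h) (2 * K) x) ⊆
      ((univ : Finset (Fin (2 * K) × Fin k)).biUnion fun q =>
        univ.filter fun x => walk g (cj g h) x q.1 = e q.2) ∪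
      (univ.filter fun π : Par n K g => Cond e e' h π).image Prod.fst := by
    intro x hx
    rw [mem_filter] at hx
    rw [mem_union]
    by_cases hc : ∀ j < 2 * K, ∀ i, walk g (cj g h) x j ≠ e i
    · right
      obtain ⟨π, h1, h2⟩ := exists_par hK e e' h hm x hx.2 hc
      rw [mem_image]
      exact ⟨π, mem_filter.2 ⟨mem_univ _, h2⟩, h1⟩
    · left
      push Not at hc
      obtain ⟨j, hj, i, hi⟩ := hc
      rw [mem_biUnion]
      exact ⟨(⟨j, hj⟩, i), mem_univ _, mem_filter.2 ⟨mem_univ _, hi⟩⟩
  refine (card_le_card hsub).trans ((card_union_le _ _).trans (add_le_add ?_ card_image_le))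
  refine card_biUnion_le.trans ?_
  have h1 : ∀ q : Fin (2 * K) × Fin k,
      (univ.filter fun x => walk g (cj g h) x q.1 = e q.2).card ≤ 1 := by
    intro q
    rw [card_le_one]
    intro a ha b hb
    rw [mem_filter] at ha hb
    exact walk_inj g (cj g h) q.1 (ha.2.trans hb.2.symm)
  refine (sum_le_sum fun q _ => h1 q).trans ?_
  rw [sum_const, card_univ, Fintype.card_prod, Fintype.card_fin, Fintype.card_fin, smul_eq_mul,
    mul_one]

open scoped Classical in
theorem count : CountS := by
  intro n k K W hK hW g _ e e'
  set c : ℝ := (1 + 1 / (n : ℝ)) / (n.descFactorial (k + 2 * K) : ℝ) with hc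
  have hc0 : 0 ≤ c := by positivity
  -- the main estimate
  have h1 : ∀ h, (if Maps e e' h then
        W h * ((univ.filter fun x => Dist g (cj g h) (2 * K) x).card : ℝ) else 0) ≤
      (if Maps e e' h then W h else 0) * (2 * (K : ℝ) * (k : ℝ)) +
        ∑ π : Par n K g, if Cond e e' h π then W h else 0 := by
    intro h
    have h0 : ∑ π : Par n K g, (if Cond e e' h π then W h else 0) =
        ((univ.filter fun π : Par n K g => Cond e e' h π).card : ℝ) * W h := by
      rw [← sum_filter, sum_const, nsmul_eq_mul]
    rw [h0]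
    have hw := hW.nonneg h
    split_ifs with hm
    · have h2 := card_good (g := g) hK e e' h hm
      have h3 : ((univ.filter fun x => Dist g (cj g h) (2 * K) x).card : ℝ) ≤
          2 * K * k + ((univ.filter fun π : Par n K g => Cond e e' h π).card : ℝ) := by
        exact_mod_cast h2
      have h4 := mul_le_mul_of_nonneg_left h3 hw
      refine h4.trans (le_of_eq ?_)
      ring
    · rw [zero_mul, zero_add]
      positivity
  have h2 : ∀ π : Par n K g, ∑ h, (if Cond e e' h π then W h else 0) ≤ c := by
    intro π
    by_cases hi : Function.Injective (T1 e π) ∧ Function.Injective (T2 e' π)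
    · have h3 := hW.upper (k + 2 * K) le_rfl ⟨T1 e π, hi.1⟩ ⟨T2 e' π, hi.2⟩
      refine le_trans (le_of_eq ?_) h3
      unfold wt
      refine sum_congr rfl fun h _ => ?_
      congr 1
      rw [eq_iff_iff]
      constructor
      · intro hh i
        exact hh.2.2 i
      · intro hh
        exact ⟨hi.1, hi.2, hh⟩
    · have h3 : ∀ h, (if Cond e e' h π then W h else 0) = 0 := by
        intro h
        rw [if_neg]
        intro hh
        exact hi ⟨hh.1, hh.2.1⟩
      rw [sum_congr rfl fun h _ => h3 h, sum_const_zero]
      exact hc0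
  refine (sum_le_sum fun h _ => h1 h).trans ?_
  rw [sum_add_distrib, ← sum_mul]
  refine add_le_add (le_of_eq ?_) ?_
  · rfl
  · rw [sum_comm]
    refine (sum_le_sum fun π _ => h2 π).trans (le_of_eq ?_)
    rw [sum_const, nsmul_eq_mul, card_univ]
    have h3 : Fintype.card (Par n K g) = n * (n * (g.support.card ^ K * g.support.card ^ (K - 1))) := by
      have h5 : Fintype.card g.support = g.support.card := Fintype.card_coe _
      rw [Fintype.card_prod, Fintype.card_prod, Fintype.card_prod, Fintype.card_fun,
        Fintype.card_fun, Fintype.card_fin, Fintype.card_fin, Fintype.card_fin]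
      convert rfl using 6 <;> exact h5.symm
    rw [h3]
    have h4 : 2 * K - 1 = K + (K - 1) := by omega
    rw [h4, pow_add]
    push_cast
    ring

end Pool.Agent.SymDiam.H59
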