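import Pool.Agent.Lib.MP_7b6720_al.INV.Iface

set_option autoImplicit false

/-! # Module FORCE -/

namespace Pool.Agent.SymDiam.H59

open Equiv Finset Pool.Agent.SymDiam

/-- pairwise disjoint two-cycles of an involution -/
theorem exists_pairs (n L : ℕ) (g : Perm (Fin n)) (hg : g * g = 1)
    (hL : 2 * (L + 1) ≤ g.support.card) :
    ∃ p : ℕ → Fin n, (∀ i ≤ L, ∀ j ≤ L, p i = p j → i = j) ∧
      (∀ i ≤ L, ∀ j ≤ L, p i ≠ g (p j)) := by
  have hgg : ∀ y, g (g y) = y := fun y => by
    rw [← Perm.mul_apply, hg, Perm.one_apply]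
  set P : Finset (Fin n) := univ.filter fun y => y < g y with hP
  have hsub : g.support ⊆ P ∪ P.image g := by
    intro y hy
    rw [Perm.mem_support] at hy
    rw [mem_union, mem_image]
    rcases lt_or_gt_of_ne hy with h | h
    · right
      refine ⟨g y, ?_, hgg y⟩
      rw [hP, mem_filter, hgg]
      exact ⟨mem_univ _, h⟩
    · left
      rw [hP, mem_filter]
      exact ⟨mem_univ _, h⟩
  have hcard : L + 1 ≤ P.card := by
    have h1 := card_le_card hsub
    have h2 := card_union_le P (P.image g)
    have h3 : (P.image g).card ≤ P.card := card_image_le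
    omega
  let f := P.orderEmbOfCardLe hcard
  have hf : ∀ i, f i < g (f i) := by
    intro i
    have h1 := P.orderEmbOfCardLe_mem hcard i
    exact (mem_filter.1 (hP ▸ h1 : P.orderEmbOfCardLe hcard i ∈ univ.filter fun y => y < g y)).2
  refine ⟨fun i => if h : i < L + 1 then f ⟨i, h⟩ else f 0, ?_, ?_⟩
  · intro i hi j hj h
    simp only [Nat.lt_succ_of_le hi, Nat.lt_succ_of_le hj, dif_pos] at h
    have h1 := f.injective h
    exact congrArg Fin.val h1
  · intro i hi j hj h
    simp only [Nat.lt_succ_of_le hi, Nat.lt_succ_of_le hj, dif_pos] at h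
    have h1 := hf ⟨i, Nat.lt_succ_of_le hi⟩
    have h2 := hf ⟨j, Nat.lt_succ_of_le hj⟩
    rw [h, hgg] at h1
    exact lt_asymm h1 h2

theorem force : ForceS := by
  intro n L g hg hL
  have hgg : ∀ y, g (g y) = y := fun y => by
    rw [← Perm.mul_apply, hg, Perm.one_apply]
  obtain ⟨p, hp1, hp2⟩ := exists_pairs n L g hg hL
  let a : ℕ → Fin n := fun j => if j % 2 = 0 then p (j / 2) else g (p (j / 2))
  have ha0 : ∀ j, j % 2 = 0 → g (a j) = a (j + 1) := by
    intro j hj
    have h1 : (j + 1) % 2 ≠ 0 := by omega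
    have h2 : (j + 1) / 2 = j / 2 := by omega
    simp only [a, if_pos hj, if_neg h1, h2]
  have hinj : ∀ i < 2 * L, ∀ j < 2 * L, a i = a j → i = j := by
    intro i hi j hj h
    simp only [a] at h
    split_ifs at h with h1 h2 h2
    · have := hp1 _ (by omega) _ (by omega) h
      omega
    · exact absurd h (hp2 _ (by omega) _ (by omega))
    · exact absurd h.symm (hp2 _ (by omega) _ (by omega))
    · have := hp1 _ (by omega) _ (by omega) (g.injective h)
      omega
  have hx : ∀ j < 2 * L, a j ≠ p L := by
    intro j hj h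
    simp only [a] at h
    split_ifs at h with h1
    · have := hp1 _ (by omega) _ le_rfl h
      omega
    · exact hp2 _ le_rfl _ (by omega) h.symm
  let e : Fin (2 * L) ↪ Fin n := ⟨fun j => if (j : ℕ) = 0 then p L else a (j - 1), by
    intro i j h
    simp only at h
    have hi := i.2
    have hj := j.2
    apply Fin.ext
    split_ifs at h with h1 h2 h2
    · omega
    · exact absurd h.symm (hx _ (by omega))
    · exact absurd h (hx _ (by omega))
    · have := hinj _ (by omega) _ (by omega) h
      omega⟩
  let e' : Fin (2 * L) ↪ Fin n := ⟨fun j => a j, by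
    intro i j h
    exact Fin.ext (hinj _ i.2 _ j.2 h)⟩
  refine ⟨e, e', p L, fun h hh => ?_⟩
  have hwalk : ∀ j (hj : j < 2 * L), walk g (cj g h) (p L) j = e ⟨j, hj⟩ := by
    intro j
    induction j with
    | zero => intro hj; rfl
    | succ j ih =>
      intro hj
      have h1 := ih (by omega)
      have hs : e ⟨j + 1, hj⟩ = a j := by
        simp [e]
      rw [hs]
      have hw : walk g (cj g h) (p L) (j + 1) = if j % 2 = 0 then cj g h (walk g (cj g h) (p L) j)
          else g (walk g (cj g h) (p L) j) := rfl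
      rw [hw, h1]
      by_cases hj2 : j % 2 = 0
      · rw [if_pos hj2]
        have h2 : h (e ⟨j, by omega⟩) = a j := hh ⟨j, by omega⟩
        have h3 : h (e ⟨j + 1, hj⟩) = a (j + 1) := hh ⟨j + 1, hj⟩
        rw [hs] at h3
        change h⁻¹ (g (h (e ⟨j, by omega⟩))) = a j
        rw [h2, ha0 j hj2, ← h3]
        exact h.symm_apply_apply _
      · rw [if_neg hj2]
        have hj0 : j ≠ 0 := by omega
        have h2 : e ⟨j, by omega⟩ = a (j - 1) := by
          simp [e, hj0]
        rw [h2]
        have h3 := ha0 (j - 1) (by omega)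
        rw [Nat.sub_add_cancel (Nat.one_le_iff_ne_zero.2 hj0)] at h3
        exact h3
  intro i hi j hj hij
  rw [hwalk i hi, hwalk j hj] at hij
  exact congrArg Fin.val (e.injective hij)

end Pool.Agent.SymDiam.H59
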